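import Pool.Agent.H757R2.PgstAnalytic

/-!
# Pretty good transfer between two real vectors: the analytic criterion

The theorem `pgst_criterion` of `Pool.Agent.H757R2.PgstAnalytic` for two arbitrary real vectors of
the same length in place of two vectors of the standard basis; its proof is followed.
-/

set_option autoImplicit false

namespace Pool.Agent.Y576.PG

open Filter Topology Finset Pool.Agent.H757R2.PgstA

open scoped Matrix in
/-- The criterion for pretty good transfer from `b` to `a`. -/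
theorem criterion {n : ℕ} (A : Matrix (Fin n) (Fin n) ℝ) (hA : A.IsSymm) (a b : Fin n → ℝ)
    (c : ℝ) (hc : 0 < c) (ha : a ⬝ᵥ a = c) (hb : b ⬝ᵥ b = c)
    {m₀ m₁ : ℕ} (θ : Fin m₀ ⊕ Fin m₁ → ℝ) (z : Fin m₀ ⊕ Fin m₁ → Fin n → ℝ)
    (h0 : Function.Injective fun i => θ (Sum.inl i)) (h1 : Function.Injective fun i => θ (Sum.inr i))
    (hz : ∀ i, z i ≠ 0) (hev : ∀ i, A.mulVec (z i) = θ i • z i)
    (hp : ∑ i, z (Sum.inl i) = a + b)
    (hm : ∑ i, z (Sum.inr i) = a - b) :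
    (∀ ε : ℝ, 0 < ε → ∃ t : ℝ,
      (1 - ε) * c < ‖(fun k => (a k : ℂ)) ⬝ᵥ
        ((NormedSpace.exp ((Complex.I * (t : ℂ)) • A.map (fun x : ℝ => (x : ℂ))) :
        Matrix (Fin n) (Fin n) ℂ).mulVec (fun k => (b k : ℂ)))‖) ↔
    ∀ l : Fin m₀ ⊕ Fin m₁ → ℤ, ∑ i, l i = 0 → ∑ i, (l i : ℝ) * θ i = 0 →
      Even (∑ i, l (Sum.inr i)) := by
  -- orthogonality
  have horth : ∀ i j, θ i ≠ θ j → z i ⬝ᵥ z j = 0 := by
    intro i j hij
    have e1 : (A.mulVec (z i)) ⬝ᵥ z j = z i ⬝ᵥ (A.mulVec (z j)) := by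
      rw [Matrix.dotProduct_mulVec, ← Matrix.mulVec_transpose, hA.eq]
    rw [hev, hev, smul_dotProduct, dotProduct_smul, smul_eq_mul, smul_eq_mul] at e1
    have : (θ i - θ j) * (z i ⬝ᵥ z j) = 0 := by linarith
    rcases mul_eq_zero.mp this with h | h
    · exact absurd (sub_eq_zero.mp h) hij
    · exact h
  have ho0 : ∀ i j : Fin m₀, i ≠ j → z (Sum.inl i) ⬝ᵥ z (Sum.inl j) = 0 :=
    fun i j hij => horth _ _ fun h => hij (h0 h)
  have ho1 : ∀ i j : Fin m₁, i ≠ j → z (Sum.inr i) ⬝ᵥ z (Sum.inr j) = 0 :=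
    fun i j hij => horth _ _ fun h => hij (h1 h)
  set w : Fin m₀ ⊕ Fin m₁ → ℝ := fun i => (z i ⬝ᵥ z i) / (4 * c) with hw
  have hwpos : ∀ i, 0 < w i := by
    intro i
    have h2 : 0 ≤ z i ⬝ᵥ z i := by
      simp only [dotProduct]
      exact Finset.sum_nonneg fun k _ => mul_self_nonneg _
    have h3 : z i ⬝ᵥ z i ≠ 0 := by
      intro h
      exact hz i (dotProduct_self_eq_zero.mp h)
    have : 0 < z i ⬝ᵥ z i := lt_of_le_of_ne h2 (Ne.symm h3)
    simp only [hw]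
    positivity
  let s : Fin m₀ ⊕ Fin m₁ → ℤ := Sum.elim (fun _ => 0) (fun _ => 1)
  set av : Fin n → ℂ := fun k => (a k : ℂ) with hav
  set bv : Fin n → ℂ := fun k => (b k : ℂ) with hbv
  have hcc : (c : ℂ) ≠ 0 := by exact_mod_cast hc.ne'
  -- complex vectors
  have hpc : (∑ i, fun k => (z (Sum.inl i) k : ℂ)) = av + bv := by
    funext k
    have := congrFun hp k
    rw [Finset.sum_apply] at this ⊢
    have h2 := congrArg (fun x : ℝ => (x : ℂ)) this
    simp only [Pi.add_apply, hav, hbv] at h2 ⊢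
    push_cast at h2
    rw [h2]
  have hmc : (∑ i, fun k => (z (Sum.inr i) k : ℂ)) = av - bv := by
    funext k
    have := congrFun hm k
    rw [Finset.sum_apply] at this ⊢
    have h2 := congrArg (fun x : ℝ => (x : ℂ)) this
    simp only [Pi.sub_apply, hav, hbv] at h2 ⊢
    push_cast at h2
    rw [h2]
  have key : ∀ (M : Matrix (Fin n) (Fin n) ℂ) (g : Fin m₀ ⊕ Fin m₁ → ℂ), Mᵀ = M →
      (∀ i, M.mulVec (fun k => (z i k : ℂ)) = g i • (fun k => (z i k : ℂ))) →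
      av ⬝ᵥ (M.mulVec bv) = c * ∑ i, ((w i : ℂ) * (-1) ^ (s i)) * g i := by
    intro M g hMt hMg
    have e1 := orth_sum (fun i => z (Sum.inl i)) ho0 (fun i => g (Sum.inl i))
    have e2 := orth_sum (fun i => z (Sum.inr i)) ho1 (fun i => g (Sum.inr i))
    simp_rw [← hMg] at e1 e2
    rw [← Matrix.mulVec_sum, hpc] at e1
    rw [← Matrix.mulVec_sum, hmc] at e2
    have hsym : bv ⬝ᵥ (M.mulVec av) = av ⬝ᵥ (M.mulVec bv) := by
      rw [Matrix.dotProduct_mulVec, ← Matrix.mulVec_transpose, hMt, dotProduct_comm]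
    have e3 : (av + bv) ⬝ᵥ (M.mulVec (av + bv)) = av ⬝ᵥ (M.mulVec av) + av ⬝ᵥ (M.mulVec bv) +
        bv ⬝ᵥ (M.mulVec av) + bv ⬝ᵥ (M.mulVec bv) := by
      rw [Matrix.mulVec_add, add_dotProduct, dotProduct_add, dotProduct_add]
      ring
    have e4 : (av - bv) ⬝ᵥ (M.mulVec (av - bv)) = av ⬝ᵥ (M.mulVec av) - av ⬝ᵥ (M.mulVec bv) -
        bv ⬝ᵥ (M.mulVec av) + bv ⬝ᵥ (M.mulVec bv) := by
      rw [Matrix.mulVec_sub, sub_dotProduct, dotProduct_sub, dotProduct_sub]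
      ring
    rw [e3] at e1
    rw [e4] at e2
    rw [Fintype.sum_sum_type]
    have e5 : (c : ℂ) * ∑ i : Fin m₀, ((w (Sum.inl i) : ℂ) * (-1) ^ (s (Sum.inl i))) *
        g (Sum.inl i) = (av ⬝ᵥ (M.mulVec av) + av ⬝ᵥ (M.mulVec bv) +
        bv ⬝ᵥ (M.mulVec av) + bv ⬝ᵥ (M.mulVec bv)) / 4 := by
      rw [e1, Finset.sum_div, Finset.mul_sum]
      apply Finset.sum_congr rfl
      intro i _
      simp only [hw, s, Sum.elim_inl, zpow_zero]
      push_cast
      field_simp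
    have e6 : (c : ℂ) * ∑ i : Fin m₁, ((w (Sum.inr i) : ℂ) * (-1) ^ (s (Sum.inr i))) *
        g (Sum.inr i) = -(av ⬝ᵥ (M.mulVec av) - av ⬝ᵥ (M.mulVec bv) -
        bv ⬝ᵥ (M.mulVec av) + bv ⬝ᵥ (M.mulVec bv)) / 4 := by
      rw [e2, neg_div, Finset.sum_div, ← Finset.sum_neg_distrib, Finset.mul_sum]
      apply Finset.sum_congr rfl
      intro i _
      simp only [hw, s, Sum.elim_inr, zpow_one]
      push_cast
      field_simp
    rw [mul_add, e5, e6, hsym]
    ring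
  -- total mass
  have hw1 : ∑ i, w i = 1 := by
    have e1 := orth_sum (fun i => z (Sum.inl i)) ho0 (fun _ => 1)
    have e2 := orth_sum (fun i => z (Sum.inr i)) ho1 (fun _ => 1)
    simp only [one_smul, one_mul] at e1 e2
    rw [hpc] at e1
    rw [hmc] at e2
    have haa : av ⬝ᵥ av = c := by
      have : av ⬝ᵥ av = ((a ⬝ᵥ a : ℝ) : ℂ) := by simp [hav, dotProduct]
      rw [this, ha]
    have hbb : bv ⬝ᵥ bv = c := by
      have : bv ⬝ᵥ bv = ((b ⬝ᵥ b : ℝ) : ℂ) := by simp [hbv, dotProduct]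
      rw [this, hb]
    have e3 : (av + bv) ⬝ᵥ (av + bv) = 2 * c + 2 * (av ⬝ᵥ bv) := by
      rw [add_dotProduct, dotProduct_add, dotProduct_add, haa, hbb, dotProduct_comm bv av]
      ring
    have e4 : (av - bv) ⬝ᵥ (av - bv) = 2 * c - 2 * (av ⬝ᵥ bv) := by
      rw [sub_dotProduct, dotProduct_sub, dotProduct_sub, haa, hbb, dotProduct_comm bv av]
      ring
    rw [e3] at e1
    rw [e4] at e2
    have e7 : ((∑ i : Fin m₀, z (Sum.inl i) ⬝ᵥ z (Sum.inl i) +
        ∑ i : Fin m₁, z (Sum.inr i) ⬝ᵥ z (Sum.inr i) : ℝ) : ℂ) = ((4 * c : ℝ) : ℂ) := by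
      push_cast
      rw [← e1, ← e2]
      ring
    have e8 : ∑ i : Fin m₀, z (Sum.inl i) ⬝ᵥ z (Sum.inl i) +
        ∑ i : Fin m₁, z (Sum.inr i) ⬝ᵥ z (Sum.inr i) = 4 * c := by exact_mod_cast e7
    rw [Fintype.sum_sum_type]
    simp only [hw]
    rw [← Finset.sum_div, ← Finset.sum_div, ← add_div, e8]
    field_simp
  -- the transition amplitude
  have hU : ∀ t : ℝ, av ⬝ᵥ
        ((NormedSpace.exp ((Complex.I * (t : ℂ)) • A.map (fun x : ℝ => (x : ℂ))) :
        Matrix (Fin n) (Fin n) ℂ).mulVec bv) =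
      c * ∑ i, ((w i : ℂ) * (-1) ^ (s i)) * Complex.exp ((θ i * Complex.I) * t) := by
    intro t
    apply key
    · rw [← Matrix.exp_transpose, Matrix.transpose_smul, ← Matrix.transpose_map, hA.eq]
    · intro i
      apply exp_mulVec_eig
      rw [Matrix.smul_mulVec]
      have : (A.map (fun x : ℝ => (x : ℂ))).mulVec (fun k => (z i k : ℂ)) =
          (θ i : ℂ) • (fun k => (z i k : ℂ)) := by
        funext k
        have h2 := congrArg (fun x : ℝ => (x : ℂ)) (congrFun (hev i) k)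
        simp only [Matrix.mulVec, dotProduct, Pi.smul_apply, smul_eq_mul] at h2 ⊢
        push_cast at h2
        simpa using h2
      rw [this, smul_smul]
      congr 1
      ring
  have hlast : ∀ l : Fin m₀ ⊕ Fin m₁ → ℤ, ∑ i, l i * s i = ∑ i, l (Sum.inr i) := by
    intro l
    rw [Fintype.sum_sum_type]
    simp [s]
  have hnorm : ∀ (t : ℝ) (ε : ℝ), ((1 - ε) * c < ‖av ⬝ᵥ
        ((NormedSpace.exp ((Complex.I * (t : ℂ)) • A.map (fun x : ℝ => (x : ℂ))) :
        Matrix (Fin n) (Fin n) ℂ).mulVec bv)‖) ↔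
      1 - ε < ‖∑ i, ((w i : ℂ) * (-1) ^ (s i)) * Complex.exp ((θ i * Complex.I) * t)‖ := by
    intro t ε
    rw [hU, norm_mul, Complex.norm_real, Real.norm_eq_abs, abs_of_pos hc, mul_comm c]
    exact mul_lt_mul_iff_left₀ hc
  simp_rw [hnorm]
  constructor
  · intro H l hl hlθ
    rw [← hlast]
    exact crit_mp w hwpos hw1 s θ H l hl hlθ
  · intro H ε hε
    apply crit_mpr w hwpos hw1 s θ _ ε hε
    intro l hl hlθ
    rw [hlast]
    exact H l hl hlθ

end Pool.Agent.Y576.PG
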