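import Pool.Agent.H687R2.Pgst.Final
import Pool.Agent.Y576.PG.Krylov2
import Pool.Agent.Y576.PG.Crit2
import Pool.Agent.Y576.PG.MinPoly2

/-!
# Pretty good transfer between rational states is decidable in polynomial time
-/

set_option autoImplicit false

namespace Pool.Agent.Y576.PG

open Pool.Agent.NPC Pool.Agent.H687R2.LLL Pool.Agent.H687R2.Pgst Polynomial

/-- Pretty good transfer from `b` to `a` under the Hamiltonian `A / q`. -/
def Trans {n : ℕ} (q : ℕ) (A : Matrix (Fin n) (Fin n) ℤ) (a b : Fin n → ℤ) : Prop :=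
  ∀ ε : ℝ, 0 < ε → ∃ t : ℝ,
    (1 - ε) * ((a ⬝ᵥ a : ℤ) : ℝ) < ‖(fun k => (a k : ℂ)) ⬝ᵥ
      ((NormedSpace.exp ((Complex.I * (t : ℂ)) • Matrix.of fun i j => (A i j : ℂ) / (q : ℂ)) :
        Matrix (Fin n) (Fin n) ℂ).mulVec (fun k => (b k : ℂ)))‖

/-- The type of the inputs. -/
abbrev Inp := ℕ × List (List ℤ) × List ℤ × List ℤ

/-- The code of an instance. -/
def inp {n : ℕ} (q : ℕ) (A : Matrix (Fin n) (Fin n) ℤ) (a b : Fin n → ℤ) : Inp :=
  (q, matL A, vecL a, vecL b)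

/-- The decision problem. -/
def Problem2 (x : Inp) : Prop :=
  ∃ (n q : ℕ) (A : Matrix (Fin n) (Fin n) ℤ) (a b : Fin n → ℤ), 0 < q ∧ A.IsSymm ∧
    a ⬝ᵥ a = b ⬝ᵥ b ∧ a ≠ b ∧ a ≠ -b ∧ x = inp q A a b ∧ Trans q A a b

/-! ### Rescaling -/

theorem trans_iff {n : ℕ} {q : ℕ} (hq : 0 < q) (A : Matrix (Fin n) (Fin n) ℤ) (a b : Fin n → ℤ) :
    Trans q A a b ↔ ∀ ε : ℝ, 0 < ε → ∃ t : ℝ,
      (1 - ε) * ((a ⬝ᵥ a : ℤ) : ℝ) < ‖(fun k => (((a k : ℤ) : ℝ) : ℂ)) ⬝ᵥ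
        ((NormedSpace.exp ((Complex.I * (t : ℂ)) •
          (A.map (Int.cast : ℤ → ℝ)).map (fun x : ℝ => (x : ℂ))) :
          Matrix (Fin n) (Fin n) ℂ).mulVec (fun k => (((b k : ℤ) : ℝ) : ℂ)))‖ := by
  have hq' : (q : ℂ) ≠ 0 := by exact_mod_cast hq.ne'
  have hqr : (q : ℝ) ≠ 0 := by exact_mod_cast hq.ne'
  have e : ∀ t : ℝ, (Complex.I * ((q * t : ℝ) : ℂ)) • (Matrix.of fun i j => (A i j : ℂ) / (q : ℂ)) =
      (Complex.I * (t : ℂ)) • (A.map (Int.cast : ℤ → ℝ)).map (fun x : ℝ => (x : ℂ)) := by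
    intro t
    ext i j
    simp only [Matrix.smul_apply, Matrix.of_apply, Matrix.map_apply, smul_eq_mul]
    push_cast
    field_simp
  have ea : (fun k => (((a k : ℤ) : ℝ) : ℂ)) = fun k => (a k : ℂ) := by funext k; simp
  have eb : (fun k => (((b k : ℤ) : ℝ) : ℂ)) = fun k => (b k : ℂ) := by funext k; simp
  rw [ea, eb, Trans]
  refine forall₂_congr fun ε _ => ?_
  constructor
  · rintro ⟨t, ht⟩
    refine ⟨t / q, ?_⟩
    rw [← e, mul_div_cancel₀ _ hqr]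
    exact ht
  · rintro ⟨t, ht⟩
    refine ⟨q * t, ?_⟩
    rw [e]
    exact ht

/-! ### The size parameter -/

/-- The number of digits of all entries. -/
def bsz (L : List (List ℤ)) : ℕ := (L.flatMap fun r => r.flatMap fun x => x.natAbs.bits).length

theorem len_le_flatMap {β γ : Type} {f : β → List γ} {l : List β} {x : β} (hx : x ∈ l) :
    (f x).length ≤ (l.flatMap f).length := by
  induction l with
  | nil => simp at hx
  | cons y l ih =>
    rw [List.flatMap_cons, List.length_append]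
    rcases List.mem_cons.1 hx with rfl | h
    · omega
    · have := ih h; omega

theorem natAbs_lt_bsz {L : List (List ℤ)} {r : List ℤ} (hr : r ∈ L) {x : ℤ} (hx : x ∈ r) :
    x.natAbs < 2 ^ bsz L := by
  have h1 : x.natAbs.bits.length ≤ (r.flatMap fun x => x.natAbs.bits).length :=
    len_le_flatMap (f := fun x : ℤ => x.natAbs.bits) hx
  have h2 : (r.flatMap fun x => x.natAbs.bits).length ≤ bsz L :=
    len_le_flatMap (f := fun r : List ℤ => r.flatMap fun x => x.natAbs.bits) hr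
  have h3 : x.natAbs < 2 ^ x.natAbs.bits.length := by
    rw [Nat.size_eq_bits_len]
    exact Nat.lt_size_self _
  exact lt_of_lt_of_le h3 (Nat.pow_le_pow_right (by norm_num) (h1.trans h2))

theorem getD_le_bsz {L : List (List ℤ)} {r : List ℤ} (hr : r ∈ L) (j : ℕ) :
    (r.getD j 0).natAbs ≤ 2 ^ bsz L := by
  by_cases hj : j < r.length
  · rw [List.getD_eq_getElem _ _ hj]
    exact (natAbs_lt_bsz hr (List.getElem_mem _)).le
  · rw [List.getD_eq_default _ _ (by omega)]; simp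

/-- The size parameter of an input. -/
def NN (x : Inp) : ℕ := x.2.1.length + bsz (x.2.2.1 :: x.2.2.2 :: x.2.1) + 1

theorem len_le_NN (x : Inp) : x.2.1.length ≤ NN x := by unfold NN; omega

theorem entry_le_NN (x : Inp) : ∀ r ∈ x.2.1, ∀ y ∈ r, |y| ≤ 2 ^ NN x := by
  intro r hr y hy
  have h1 : y.natAbs < 2 ^ bsz (x.2.2.1 :: x.2.2.2 :: x.2.1) :=
    natAbs_lt_bsz (L := x.2.2.1 :: x.2.2.2 :: x.2.1) (r := r) (by simp [hr]) hy
  have h2 : 2 ^ bsz (x.2.2.1 :: x.2.2.2 :: x.2.1) ≤ 2 ^ NN x :=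
    Nat.pow_le_pow_right (by norm_num) (by unfold NN; omega)
  rw [Int.abs_eq_natAbs]
  exact_mod_cast h1.le.trans h2

/-- The sum of two vectors. -/
def vP (n : ℕ) (a b : List ℤ) : List ℤ := (List.range n).map fun j => a.getD j 0 + b.getD j 0

/-- The difference of two vectors. -/
def vM (n : ℕ) (a b : List ℤ) : List ℤ := (List.range n).map fun j => a.getD j 0 - b.getD j 0

theorem nrm_vP_le (x : Inp) : nrm (vP x.2.1.length x.2.2.1 x.2.2.2) ≤ 2 ^ NN x := by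
  set s := bsz (x.2.2.1 :: x.2.2.2 :: x.2.1) with hs
  have h : nrm (vP x.2.1.length x.2.2.1 x.2.2.2) ≤ x.2.1.length * (2 * 2 ^ s) := by
    refine (nrm_le_length_mul (B := 2 * 2 ^ s) fun y hy => ?_).trans_eq (by simp [vP])
    rw [vP, List.mem_map] at hy
    obtain ⟨j, _, rfl⟩ := hy
    have h1 := getD_le_bsz (L := x.2.2.1 :: x.2.2.2 :: x.2.1) (r := x.2.2.1) (by simp) j
    have h2 := getD_le_bsz (L := x.2.2.1 :: x.2.2.2 :: x.2.1) (r := x.2.2.2) (by simp) j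
    have h3 := Int.natAbs_add_le (x.2.2.1.getD j 0) (x.2.2.2.getD j 0)
    rw [← hs] at h1 h2
    omega
  refine h.trans ?_
  have h4 : x.2.1.length ≤ 2 ^ x.2.1.length := nat_le_two_pow _
  calc x.2.1.length * (2 * 2 ^ s) ≤ 2 ^ x.2.1.length * (2 * 2 ^ s) := Nat.mul_le_mul_right _ h4
    _ = 2 ^ NN x := by rw [NN, ← hs, pow_add, pow_add]; ring

theorem nrm_vM_le (x : Inp) : nrm (vM x.2.1.length x.2.2.1 x.2.2.2) ≤ 2 ^ NN x := by
  set s := bsz (x.2.2.1 :: x.2.2.2 :: x.2.1) with hs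
  have h : nrm (vM x.2.1.length x.2.2.1 x.2.2.2) ≤ x.2.1.length * (2 * 2 ^ s) := by
    refine (nrm_le_length_mul (B := 2 * 2 ^ s) fun y hy => ?_).trans_eq (by simp [vM])
    rw [vM, List.mem_map] at hy
    obtain ⟨j, _, rfl⟩ := hy
    have h1 := getD_le_bsz (L := x.2.2.1 :: x.2.2.2 :: x.2.1) (r := x.2.2.1) (by simp) j
    have h2 := getD_le_bsz (L := x.2.2.1 :: x.2.2.2 :: x.2.1) (r := x.2.2.2) (by simp) j
    have h3 := Int.natAbs_sub_le (x.2.2.1.getD j 0) (x.2.2.2.getD j 0)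
    rw [← hs] at h1 h2
    omega
  refine h.trans ?_
  have h4 : x.2.1.length ≤ 2 ^ x.2.1.length := nat_le_two_pow _
  calc x.2.1.length * (2 * 2 ^ s) ≤ 2 ^ x.2.1.length * (2 * 2 ^ s) := Nat.mul_le_mul_right _ h4
    _ = 2 ^ NN x := by rw [NN, ← hs, pow_add, pow_add]; ring

/-! ### The algorithm -/

/-- Root approximations. -/
def kP' (x : Inp) : List ℤ :=
  NPC.PgstR.rootApprox (minP' x.2.1 (vP x.2.1.length x.2.2.1 x.2.2.2) (NN x),
    List.replicate (pK (NN x)) ())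

/-- Root approximations. -/
def kM' (x : Inp) : List ℤ :=
  NPC.PgstR.rootApprox (minP' x.2.1 (vM x.2.1.length x.2.2.1 x.2.2.2) (NN x),
    List.replicate (pK (NN x)) ())

/-- The algorithm on valid inputs. -/
def alg' (x : Inp) : Bool := ans (NN x) (kP' x).length (kP' x ++ kM' x)

section Correct

variable {n : ℕ} (q : ℕ) (A : Matrix (Fin n) (Fin n) ℤ) (a b : Fin n → ℤ)

theorem getD_vecL (a : Fin n → ℤ) (j : Fin n) : (vecL a).getD j 0 = a j := by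
  rw [vecL, List.getD_eq_getElem _ _ (by simp)]
  simp

theorem vP_eq : vP n (vecL a) (vecL b) = vecL (a + b) := by
  rw [vP, range_map_eq_ofFn]
  change _ = List.ofFn _
  congr 1
  funext j
  rw [getD_vecL, getD_vecL]
  rfl

theorem vM_eq : vM n (vecL a) (vecL b) = vecL (a - b) := by
  rw [vM, range_map_eq_ofFn]
  change _ = List.ofFn _
  congr 1
  funext j
  rw [getD_vecL, getD_vecL]
  rfl

theorem len_inp : (inp q A a b).2.1.length = n := length_matL A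

/-- All the facts about an input. -/
theorem main_facts' (hq : 0 < q) (hsymm : A.IsSymm) (hab : a ⬝ᵥ a = b ⬝ᵥ b) (hne : a ≠ b)
    (hne' : a ≠ -b) : ∃ (m₀ m₁ : ℕ) (θ : Fin m₀ ⊕ Fin m₁ → ℝ)
    (P₀ P₁ : Polynomial ℤ), (kP' (inp q A a b)).length = m₀ ∧
      Inst (NN (inp q A a b)) m₀ m₁ θ P₀ P₁ (kP' (inp q A a b) ++ kM' (inp q A a b)) ∧
      (alg' (inp q A a b) = true ↔ Trans q A a b) := by
  have hzP : a + b ≠ 0 := fun h => hne' (eq_neg_of_add_eq_zero_left h)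
  have hzM : a - b ≠ 0 := fun h => hne (sub_eq_zero.1 h)
  set x : Inp := inp q A a b with hx
  set N := NN x with hN
  have hlen : x.2.1.length = n := len_inp q A a b
  have hnN : n ≤ N := by rw [← hlen]; exact len_le_NN x
  set s := bsz (x.2.2.1 :: x.2.2.2 :: x.2.1) with hs
  have hent0 : ∀ i j, |A i j| ≤ ((2 ^ s : ℕ) : ℤ) := by
    intro i j
    have h1 : (A i j).natAbs < 2 ^ s := by
      refine natAbs_lt_bsz (L := x.2.2.1 :: x.2.2.2 :: x.2.1) (r := List.ofFn fun j => A i j) ?_ ?_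
      · refine List.mem_cons_of_mem _ (List.mem_cons_of_mem _ ?_)
        change _ ∈ matL A
        rw [matL, List.mem_ofFn]
        exact ⟨i, rfl⟩
      · rw [List.mem_ofFn]
        exact ⟨j, rfl⟩
    rw [Int.abs_eq_natAbs]
    exact_mod_cast h1.le
  have hNs : N = n + s + 1 := by rw [hN, NN, hlen]
  have hsN : (2 : ℕ) ^ s ≤ 2 ^ N := Nat.pow_le_pow_right (by norm_num) (by omega)
  have hent : ∀ i j, |A i j| ≤ 2 ^ N := fun i j => (hent0 i j).trans (by exact_mod_cast hsN)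
  have hns : n * 2 ^ s + 1 ≤ 2 ^ N := by
    have h1 : n + 1 ≤ 2 ^ n := Nat.lt_two_pow_self
    have h2 : 1 ≤ 2 ^ s := Nat.one_le_two_pow
    have h3 : (n + 1) * 2 ^ s ≤ 2 ^ n * 2 ^ s := Nat.mul_le_mul_right _ h1
    have h4 : 2 ^ n * 2 ^ s ≤ 2 ^ N := by
      rw [← pow_add]
      exact Nat.pow_le_pow_right (by norm_num) (by omega)
    nlinarith
  have hcf : (((n * 2 ^ s : ℕ) : ℤ) + 1) ^ n ≤ 2 ^ (N * N) := by
    have h1 : ((n * 2 ^ s + 1 : ℕ) : ℤ) ≤ ((2 ^ N : ℕ) : ℤ) := by exact_mod_cast hns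
    have h2 : (n * 2 ^ s + 1) ^ n ≤ 2 ^ (N * N) := by
      calc (n * 2 ^ s + 1) ^ n ≤ (2 ^ N) ^ n := Nat.pow_le_pow_left hns n
        _ ≤ (2 ^ N) ^ N := Nat.pow_le_pow_right (Nat.one_le_two_pow) hnN
        _ = 2 ^ (N * N) := by rw [← pow_mul]
    exact_mod_cast h2
  obtain ⟨m₀, P₀, θ₀, Z₀, hm₀, hmn₀, hanti₀, hmon₀, hdeg₀, hmap₀, hb₀, hc₀, hZ₀, hev₀, hsum₀, hann₀⟩ :=
    Krylov2.krylov A hsymm (2 ^ s) hent0 _ hzP
  obtain ⟨m₁, P₁, θ₁, Z₁, hm₁, hmn₁, hanti₁, hmon₁, hdeg₁, hmap₁, hb₁, hc₁, hZ₁, hev₁, hsum₁, hann₁⟩ :=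
    Krylov2.krylov A hsymm (2 ^ s) hent0 _ hzM
  have hv0 : vP x.2.1.length x.2.2.1 x.2.2.2 = vecL (a + b) := by
    rw [hlen]; exact vP_eq a b
  have hv1 : vM x.2.1.length x.2.2.1 x.2.2.2 = vecL (a - b) := by
    rw [hlen]; exact vM_eq a b
  have hP₀ : polyOf (minP' (matL A) (vecL (a + b)) N) = P₀ := by
    refine minP_spec' hnN hent ?_ hmn₀ hmon₀ hdeg₀ (fun k => (hc₀ k).trans hcf) hann₀
    rw [← hv0]; exact nrm_vP_le x
  have hP₁ : polyOf (minP' (matL A) (vecL (a - b)) N) = P₁ := by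
    refine minP_spec' hnN hent ?_ hmn₁ hmon₁ hdeg₁ (fun k => (hc₁ k).trans hcf) hann₁
    rw [← hv1]; exact nrm_vM_le x
  obtain ⟨hl₀, hr₀⟩ := NPC.PgstR.rootApprox_correct (minP' (matL A) (vecL (a + b)) N) (pK N) m₀ θ₀
    hanti₀ (by rw [← hmap₀, ← hP₀]; rfl)
  obtain ⟨hl₁, hr₁⟩ := NPC.PgstR.rootApprox_correct (minP' (matL A) (vecL (a - b)) N) (pK N) m₁ θ₁
    hanti₁ (by rw [← hmap₁, ← hP₁]; rfl)
  have hkP : kP' x = NPC.PgstR.rootApprox (minP' (matL A) (vecL (a + b)) N,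
      List.replicate (pK N) ()) := by rw [kP', hv0]; rfl
  have hkM : kM' x = NPC.PgstR.rootApprox (minP' (matL A) (vecL (a - b)) N,
      List.replicate (pK N) ()) := by rw [kM', hv1]; rfl
  rw [← hkP] at hl₀ hr₀
  rw [← hkM] at hl₁ hr₁
  set θ : Fin m₀ ⊕ Fin m₁ → ℝ := Sum.elim θ₀ θ₁ with hθ
  have hnr : ((n * 2 ^ s : ℕ) : ℝ) ≤ 2 ^ N := by
    have : n * 2 ^ s ≤ 2 ^ N := by omega
    exact_mod_cast this
  have hb₀' : ∀ i, |θ₀ i| ≤ 2 ^ N := fun i => (hb₀ i).trans hnr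
  have hb₁' : ∀ i, |θ₁ i| ≤ 2 ^ N := fun i => (hb₁ i).trans hnr
  have hI : Inst N m₀ m₁ θ P₀ P₁ (kP' x ++ kM' x) := by
    refine ⟨hmn₀.trans hnN, hmn₁.trans hnN, by rw [List.length_append, hl₀, hl₁],
      ⟨hmap₀, hmap₁⟩, ?_, ?_⟩
    · rintro (i | i)
      · exact hb₀' i
      · exact hb₁' i
    · rintro (i | i)
      · simp only [idx, hθ, Sum.elim_inl]
        rw [List.getD_append _ _ _ _ (by rw [hl₀]; exact i.2)]
        exact hr₀ i
      · simp only [idx, hθ, Sum.elim_inr]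
        rw [List.getD_append_right _ _ _ _ (by rw [hl₀]; omega), hl₀, Nat.add_sub_cancel_left]
        exact hr₁ i
  refine ⟨m₀, m₁, θ, P₀, P₁, hl₀, hI, ?_⟩
  -- the algebraic data
  obtain ⟨M, C, N', hM, hC, hN', hMC, hMθ, hM1, hker, hNrel⟩ := H757R2.PgstG.galois_core P₀ P₁ θ₀ θ₁
    hmap₀ hmap₁ hanti₀.injective hanti₁.injective N hb₀' hb₁'
  have hm0N : m₀ ≤ N := hmn₀.trans hnN
  have hm1N : m₁ ≤ N := hmn₁.trans hnN
  have hE : 10 * (m₀ + m₁ + 1) ^ 3 * (N + 1) ≤ pE N := by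
    unfold pE
    exact Nat.mul_le_mul_right _ (Nat.mul_le_mul_left _ (Nat.pow_le_pow_left (by omega) 3))
  have hE' : (2 : ℤ) ^ (10 * (m₀ + m₁ + 1) ^ 3 * (N + 1)) ≤ 2 ^ pE N :=
    pow_le_pow_right₀ (by norm_num) hE
  have hAlg : Alg θ (pE N) M N' := by
    refine ⟨fun i j => (hN' i j).trans hE', fun i => ⟨hM1 i, hMθ i⟩, hker, fun l hl j => ?_⟩
    exact hNrel l hl.1 hl.2 j
  have hVd : ∀ i j, bvand θ₀ θ₁ i j = Vd θ i j := by
    rintro (i | i) (j | j) <;> simp [bvand, Vd, bl, ix, hθ, Matrix.vandermonde_apply]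
  have hex : ∀ i j, (M i j : ℝ) = ∑ a, ∑ b, (C a b : ℝ) * (Vd θ i a * Vd θ j b) := by
    intro i j
    have h1 := congrFun (congrFun hMC i) j
    simp only [Matrix.map_apply, Matrix.mul_apply, Matrix.transpose_apply, hVd] at h1
    rw [h1]
    simp only [Finset.sum_mul]
    rw [Finset.sum_comm]
    exact Finset.sum_congr rfl fun a _ => Finset.sum_congr rfl fun b _ => by ring
  have hans := hI.ans_iff hAlg (fun i j => (hM i j).trans hE') (fun i j => (hC i j).trans hE') hex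
  have halg : alg' x = ans N m₀ (kP' x ++ kM' x) := by
    rw [alg', hl₀]
  rw [halg, hans]
  -- the analytic criterion
  have hR : (A.map (Int.cast : ℤ → ℝ)).IsSymm := hsymm.map _
  have haa : (fun k => ((a k : ℤ) : ℝ)) ⬝ᵥ (fun k => ((a k : ℤ) : ℝ)) = ((a ⬝ᵥ a : ℤ) : ℝ) := by
    simp [dotProduct]
  have hbb : (fun k => ((b k : ℤ) : ℝ)) ⬝ᵥ (fun k => ((b k : ℤ) : ℝ)) = ((a ⬝ᵥ a : ℤ) : ℝ) := by
    rw [hab]
    simp [dotProduct]
  have hpos : (0 : ℝ) < ((a ⬝ᵥ a : ℤ) : ℝ) := by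
    have h0 : 0 ≤ a ⬝ᵥ a := by
      simp only [dotProduct]
      exact Finset.sum_nonneg fun k _ => mul_self_nonneg _
    have h1 : a ⬝ᵥ a ≠ 0 := by
      intro h
      have ha0 : a = 0 := dotProduct_self_eq_zero.1 h
      have hb0 : b = 0 := dotProduct_self_eq_zero.1 (hab ▸ h)
      exact hne (ha0.trans hb0.symm)
    exact_mod_cast lt_of_le_of_ne h0 (Ne.symm h1)
  have hcrit := criterion (A.map (Int.cast : ℤ → ℝ)) hR (fun k => ((a k : ℤ) : ℝ))
    (fun k => ((b k : ℤ) : ℝ)) _ hpos haa hbb θ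
    (Sum.elim Z₀ Z₁) hanti₀.injective hanti₁.injective
    (by rintro (i | i); exacts [hZ₀ i, hZ₁ i])
    (by rintro (i | i); exacts [hev₀ i, hev₁ i])
    (by
      simp only [Sum.elim_inl]
      rw [hsum₀]
      funext p
      simp only [Pi.add_apply]
      push_cast
      rfl)
    (by
      simp only [Sum.elim_inr]
      rw [hsum₁]
      funext p
      simp only [Pi.sub_apply]
      push_cast
      rfl)
  rw [trans_iff hq]
  exact hcrit.symm

end Correct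

end Pool.Agent.Y576.PG
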