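import Pool.Agent.Y576.PG.Final2

/-!
# Pretty good transfer between rational states is decidable in polynomial time: running time
-/

set_option autoImplicit false

namespace Pool.Agent.Y576.PG

open Pool.Agent.NPC Pool.Agent.H687R2.LLL Pool.Agent.H687R2.Pgst Polynomial

/-! ### Valid inputs -/

/-- Entries of a matrix of integers. -/
def gtZ (L : List (List ℤ)) (i j : ℕ) : ℤ := (L.getD i []).getD j 0

/-- The shape of an input. -/
def valid1 (x : Inp) : Bool :=
  (x.2.1.all fun r => decide (r.length = x.2.1.length)) &&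
    ((List.range x.2.1.length).all fun i => (List.range x.2.1.length).all fun j =>
      decide (gtZ x.2.1 i j = gtZ x.2.1 j i))

/-- The lengths and the norms. -/
def valid2 (x : Inp) : Bool :=
  (decide (x.2.2.1.length = x.2.1.length) && decide (x.2.2.2.length = x.2.1.length)) &&
   (decide (0 < x.1) && decide (dot x.2.2.1 x.2.2.1 = dot x.2.2.2 x.2.2.2))

/-- The two states are distinct. -/
def valid3 (x : Inp) : Bool :=
  ((List.range x.2.1.length).any fun j => decide (¬ x.2.2.1.getD j 0 - x.2.2.2.getD j 0 = 0)) &&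
   ((List.range x.2.1.length).any fun j => decide (¬ x.2.2.1.getD j 0 + x.2.2.2.getD j 0 = 0))

/-- Being the code of an instance. -/
def valid' (x : Inp) : Bool := valid1 x && (valid2 x && valid3 x)

theorem gtZ_matL {n : ℕ} (A : Matrix (Fin n) (Fin n) ℤ) (i j : Fin n) :
    gtZ (matL A) i j = A i j := by
  rw [gtZ, matL, List.getD_eq_getElem (List.ofFn _) _ (by simp)]
  rw [List.getElem_ofFn, List.getD_eq_getElem _ _ (by simp)]
  simp

theorem dot_vecL {n : ℕ} (a b : Fin n → ℤ) : dot (vecL a) (vecL b) = a ⬝ᵥ b := by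
  rw [vecL, vecL, dot_ofFn]
  rfl

theorem valid_inp {n : ℕ} {q : ℕ} {A : Matrix (Fin n) (Fin n) ℤ} {a b : Fin n → ℤ} (hq : 0 < q)
    (hsymm : A.IsSymm) (hab : a ⬝ᵥ a = b ⬝ᵥ b) (hne : a ≠ b) (hne' : a ≠ -b) :
    valid' (inp q A a b) = true := by
  have hlen : (inp q A a b).2.1.length = n := len_inp q A a b
  simp only [valid', valid1, valid2, valid3, hlen, Bool.and_eq_true, List.all_eq_true,
    List.any_eq_true, List.mem_range, decide_eq_true_eq]
  refine ⟨⟨fun r hr => ?_, fun i hi j hj => ?_⟩, ⟨⟨by simp [inp, vecL], by simp [inp, vecL]⟩, hq, ?_⟩,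
    ?_, ?_⟩
  · change r ∈ matL A at hr
    rw [matL, List.mem_ofFn] at hr
    obtain ⟨i, rfl⟩ := hr
    simp
  · have h1 := gtZ_matL A ⟨i, hi⟩ ⟨j, hj⟩
    have h2 := gtZ_matL A ⟨j, hj⟩ ⟨i, hi⟩
    simp only at h1 h2
    change gtZ (matL A) i j = gtZ (matL A) j i
    rw [h1, h2]
    exact (hsymm.apply ⟨i, hi⟩ ⟨j, hj⟩).symm
  · change dot (vecL a) (vecL a) = dot (vecL b) (vecL b)
    rw [dot_vecL, dot_vecL, hab]
  · obtain ⟨j, hj⟩ := Function.ne_iff.1 hne
    refine ⟨j, j.2, ?_⟩
    change ¬ (vecL a).getD j 0 - (vecL b).getD j 0 = 0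
    rw [getD_vecL, getD_vecL, sub_eq_zero]
    exact hj
  · obtain ⟨j, hj⟩ := Function.ne_iff.1 hne'
    refine ⟨j, j.2, ?_⟩
    change ¬ (vecL a).getD j 0 + (vecL b).getD j 0 = 0
    rw [getD_vecL, getD_vecL]
    intro h
    exact hj (by rw [Pi.neg_apply]; omega)

theorem exists_of_valid' {x : Inp} (h : valid' x = true) :
    ∃ (n q : ℕ) (A : Matrix (Fin n) (Fin n) ℤ) (a b : Fin n → ℤ), 0 < q ∧ A.IsSymm ∧
      a ⬝ᵥ a = b ⬝ᵥ b ∧ a ≠ b ∧ a ≠ -b ∧ x = inp q A a b := by
  obtain ⟨q, L, a, b⟩ := x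
  simp only [valid', valid1, valid2, valid3, Bool.and_eq_true, List.all_eq_true,
    List.any_eq_true, List.mem_range, decide_eq_true_eq] at h
  obtain ⟨⟨h1, h2⟩, ⟨⟨h3, h4⟩, h5, h6⟩, ⟨j, hj, h7⟩, k, hk, h8⟩ := h
  set n := L.length with hn
  let A : Matrix (Fin n) (Fin n) ℤ := Matrix.of fun i j => gtZ L i j
  let av : Fin n → ℤ := fun i => a.getD i 0
  let bv : Fin n → ℤ := fun i => b.getD i 0
  have hA : matL A = L := by
    apply List.ext_getElem
    · simp [matL, hn]
    · intro i hi1 hi2
      apply List.ext_getElem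
      · simp only [matL, List.getElem_ofFn, List.length_ofFn]
        exact (h1 _ (List.getElem_mem hi2)).symm
      · intro j hj1 hj2
        simp only [matL, List.getElem_ofFn]
        change gtZ L i j = _
        rw [gtZ, List.getD_eq_getElem L _ hi2, List.getD_eq_getElem _ _ hj2]
  have hvec : ∀ a : List ℤ, a.length = n → vecL (fun i : Fin n => a.getD i 0) = a := by
    intro a ha
    apply List.ext_getElem
    · simp [vecL, ha]
    · intro i hi1 hi2
      simp only [vecL, List.getElem_ofFn]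
      rw [List.getD_eq_getElem _ _ hi2]
  refine ⟨n, q, A, av, bv, h5, ?_, ?_, ?_, ?_, ?_⟩
  · ext i j
    exact (h2 i i.2 j j.2).symm
  · rw [← dot_vecL, ← dot_vecL, hvec a h3, hvec b h4, h6]
  · intro he
    apply h7
    have := congrFun he ⟨j, hj⟩
    exact sub_eq_zero.2 this
  · intro he
    apply h8
    have := congrFun he ⟨k, hk⟩
    simp only [Pi.neg_apply, av, bv] at this
    omega
  · rw [inp, hA, hvec a h3, hvec b h4]

/-- The decision procedure. -/
def dec2 (x : Inp) : Bool := valid' x && alg' x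

theorem dec2_inp {n : ℕ} {q : ℕ} {A : Matrix (Fin n) (Fin n) ℤ} {a b : Fin n → ℤ} (hq : 0 < q)
    (hsymm : A.IsSymm) (hab : a ⬝ᵥ a = b ⬝ᵥ b) (hne : a ≠ b) (hne' : a ≠ -b) :
    dec2 (inp q A a b) = true ↔ Trans q A a b := by
  obtain ⟨m₀, m₁, θ, P₀, P₁, _, _, h3⟩ := main_facts' q A a b hq hsymm hab hne hne'
  rw [dec2, valid_inp hq hsymm hab hne hne', Bool.true_and]
  exact h3

end Pool.Agent.Y576.PG

namespace Pool.Agent.Y576.PG.PolyM

open Pool.Agent.NPC Pool.Agent.NPC.Poly Pool.Agent.H687R2.LLL Pool.Agent.H687R2.Pgst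

variable {α β γ δ σ : Type} [TEnc α] [TEnc β] [TEnc γ] [TEnc δ] [TEnc σ]

theorem gtZ {L : α → List (List ℤ)} {i j : α → ℕ} (hL : Poly L) (hi : Poly i) (hj : Poly j) :
    Poly (fun a => Y576.PG.gtZ (L a) (i a) (j a)) :=
  getD (getD hL hi (const [])) hj (const 0)

theorem bsz {L : α → List (List ℤ)} (hL : Poly L) : UPoly (fun a => Y576.PG.bsz (L a)) := by
  have h1 : Poly (fun p : (α × List ℤ) × ℤ => p.2.natAbs.bits) := natBits (natAbs (snd id))
  have h2 : Poly (fun p : α × List ℤ => p.2.flatMap fun x => x.natAbs.bits) :=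
    flatMap (F := fun (_ : α × List ℤ) (x : ℤ) => x.natAbs.bits) (snd id) h1
  exact UPoly.length (flatMap (F := fun (_ : α) (r : List ℤ) => r.flatMap fun x => x.natAbs.bits)
    hL h2)

theorem vP {n : α → ℕ} {u v : α → List ℤ} (hn : UPoly n) (hu : Poly u) (hv : Poly v) :
    Poly (fun a => Y576.PG.vP (n a) (u a) (v a)) := by
  have h0 : Poly (fun p : α × ℕ => (u p.1).getD p.2 0 + (v p.1).getD p.2 0) :=
    iadd (getD (hu.comp (fst id)) (snd id) (const 0)) (getD (hv.comp (fst id)) (snd id) (const 0))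
  exact map (F := fun a j => (u a).getD j 0 + (v a).getD j 0) (UPoly.range hn) h0

theorem vM {n : α → ℕ} {u v : α → List ℤ} (hn : UPoly n) (hu : Poly u) (hv : Poly v) :
    Poly (fun a => Y576.PG.vM (n a) (u a) (v a)) := by
  have h0 : Poly (fun p : α × ℕ => (u p.1).getD p.2 0 - (v p.1).getD p.2 0) :=
    isub (getD (hu.comp (fst id)) (snd id) (const 0)) (getD (hv.comp (fst id)) (snd id) (const 0))
  exact map (F := fun a j => (u a).getD j 0 - (v a).getD j 0) (UPoly.range hn) h0

theorem NN {f : α → Inp} (hf : Poly f) : UPoly (fun a => Y576.PG.NN (f a)) := by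
  have hL : Poly (fun a => (f a).2.1) := fst (snd hf)
  have h1 : UPoly (fun a => (f a).2.1.length) := UPoly.length hL
  have h2 : Poly (fun a => (f a).2.2.1 :: (f a).2.2.2 :: (f a).2.1) :=
    cons (fst (snd (snd hf))) (cons (snd (snd (snd hf))) hL)
  exact UPoly.add (UPoly.add h1 (bsz h2)) (UPoly.const 1)

theorem valid1 : Poly Y576.PG.valid1 := by
  have hL : Poly (fun a : Inp => a.2.1) := fst (snd id)
  have h1 : Poly (fun a : Inp => a.2.1.all fun r => decide (r.length = a.2.1.length)) :=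
    all (p := fun (a : Inp) r => decide (r.length = a.2.1.length)) hL
      (decide_eq (length (snd id)) (length (fst (snd (fst id)))))
  have h2a : Poly (fun p : (Inp × ℕ) × ℕ =>
      decide (Y576.PG.gtZ p.1.1.2.1 p.1.2 p.2 = Y576.PG.gtZ p.1.1.2.1 p.2 p.1.2)) :=
    decide_eq (gtZ (fst (snd (fst (fst id)))) (snd (fst id)) (snd id))
      (gtZ (fst (snd (fst (fst id)))) (snd id) (snd (fst id)))
  have h2b : Poly (fun p : Inp × ℕ =>
      (List.range p.1.2.1.length).all fun j =>
        decide (Y576.PG.gtZ p.1.2.1 p.2 j = Y576.PG.gtZ p.1.2.1 j p.2)) :=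
    all (p := fun (p : Inp × ℕ) j =>
      decide (Y576.PG.gtZ p.1.2.1 p.2 j = Y576.PG.gtZ p.1.2.1 j p.2))
      (range_length (fst (snd (fst id)))) h2a
  have h2 : Poly (fun a : Inp => (List.range a.2.1.length).all fun i =>
      (List.range a.2.1.length).all fun j =>
        decide (Y576.PG.gtZ a.2.1 i j = Y576.PG.gtZ a.2.1 j i)) :=
    all (p := fun (a : Inp) i => (List.range a.2.1.length).all fun j =>
        decide (Y576.PG.gtZ a.2.1 i j = Y576.PG.gtZ a.2.1 j i)) (range_length hL) h2b
  exact and h1 h2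

theorem valid2 : Poly Y576.PG.valid2 := by
  have hL : Poly (fun a : Inp => a.2.1.length) := length (fst (snd id))
  have ha : Poly (fun a : Inp => a.2.2.1) := fst (snd (snd id))
  have hb : Poly (fun a : Inp => a.2.2.2) := snd (snd (snd id))
  exact and (and (decide_eq (length ha) hL) (decide_eq (length hb) hL))
    (and (decide_lt (const 0) (fst id)) (decide_eq (vdot ha ha) (vdot hb hb)))

theorem valid3 : Poly Y576.PG.valid3 := by
  have hL : Poly (fun a : Inp => List.range a.2.1.length) := range_length (fst (snd id))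
  have g1 : Poly (fun p : Inp × ℕ => p.1.2.2.1.getD p.2 0) :=
    getD (fst (snd (snd (fst id)))) (snd id) (const 0)
  have g2 : Poly (fun p : Inp × ℕ => p.1.2.2.2.getD p.2 0) :=
    getD (snd (snd (snd (fst id)))) (snd id) (const 0)
  exact and (any (p := fun (x : Inp) j => decide (¬ x.2.2.1.getD j 0 - x.2.2.2.getD j 0 = 0)) hL
      (decide_not (decide_eq (isub g1 g2) (const 0))))
    (any (p := fun (x : Inp) j => decide (¬ x.2.2.1.getD j 0 + x.2.2.2.getD j 0 = 0)) hL
      (decide_not (decide_eq (iadd g1 g2) (const 0))))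

theorem valid' : Poly Y576.PG.valid' := and valid1 (and valid2 valid3)

theorem alg' : Poly (fun a : {a : Inp // Y576.PG.valid' a = true} => Y576.PG.alg' a.1) := by
  have hid : Poly (fun a : {a : Inp // Y576.PG.valid' a = true} => a.1) := val id
  have hL : Poly (fun a : {a : Inp // Y576.PG.valid' a = true} => a.1.2.1) := fst (snd hid)
  have ha : Poly (fun a : {a : Inp // Y576.PG.valid' a = true} => a.1.2.2.1) :=
    fst (snd (snd hid))
  have hb : Poly (fun a : {a : Inp // Y576.PG.valid' a = true} => a.1.2.2.2) :=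
    snd (snd (snd hid))
  have hn : UPoly (fun a : {a : Inp // Y576.PG.valid' a = true} => a.1.2.1.length) :=
    UPoly.length hL
  have hN : UPoly (fun a : {a : Inp // Y576.PG.valid' a = true} => Y576.PG.NN a.1) := NN hid
  have hPP := minP' hL (vP hn ha hb) hN (fun a => entry_le_NN a.1) (fun a => len_le_NN a.1)
    (fun a => nrm_vP_le a.1)
  have hPM := minP' hL (vM hn ha hb) hN (fun a => entry_le_NN a.1) (fun a => len_le_NN a.1)
    (fun a => nrm_vM_le a.1)
  have hK : Poly (fun a : {a : Inp // Y576.PG.valid' a = true} =>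
      List.replicate (pK (Y576.PG.NN a.1)) ()) := upK hN
  have hkP : Poly (fun a : {a : Inp // Y576.PG.valid' a = true} => Y576.PG.kP' a.1) := by
    have := NPC.PgstR.poly_rootApprox.comp (pair hPP hK)
    exact this
  have hkM : Poly (fun a : {a : Inp // Y576.PG.valid' a = true} => Y576.PG.kM' a.1) := by
    have := NPC.PgstR.poly_rootApprox.comp (pair hPM hK)
    exact this
  refine ans hN (length hkP) (append hkP hkM) fun a => ?_
  obtain ⟨n, q, A, av, bv, hq, hsymm, hab, hne, hne', hx⟩ := exists_of_valid' a.2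
  obtain ⟨m₀, m₁, θ, P₀, P₁, h1, h2, _⟩ := main_facts' q A av bv hq hsymm hab hne hne'
  refine ⟨m₀, m₁, θ, P₀, P₁, ?_, ?_⟩
  · rw [hx]; exact h1
  · rw [hx]; exact h2

theorem dec2 : Poly Y576.PG.dec2 := Poly.diteSub valid' alg'

/-- The list of a unit vector. -/
def unitL (n u : ℕ) : List ℤ := (List.range n).map fun j => bif decide (j = u) then 1 else 0

theorem unitL_poly {n u : α → ℕ} (hn : UPoly n) (hu : Poly u) :
    Poly (fun a => unitL (n a) (u a)) := by
  have h0 : Poly (fun p : α × ℕ => (bif decide (p.2 = u p.1) then (1 : ℤ) else 0)) :=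
    cond (decide_eq (snd id) (hu.comp (fst id))) (const 1) (const 0)
  exact map (F := fun a j => (bif decide (j = u a) then (1 : ℤ) else 0)) (UPoly.range hn) h0

/-- The Laplace matrix of a matrix of bits. -/
def toLap (L : List (List Bool)) : List (List ℤ) :=
  (List.range L.length).map fun i => (List.range L.length).map fun j =>
    bif decide (i = j) then ((L.getD i []).map fun b => bif b then (1 : ℤ) else 0).sum else
      (bif H687R2.Pgst.gt L i j then (-1 : ℤ) else 0)

theorem toLap_poly {L : α → List (List Bool)} (hL : Poly L) : Poly (fun a => toLap (L a)) := by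
  have g0 : Poly (fun p : ((α × ℕ) × ℕ) × Bool => (bif p.2 then (1 : ℤ) else 0)) :=
    cond (snd id) (const 1) (const 0)
  have g1 : Poly (fun p : (α × ℕ) × ℕ => (((L p.1.1).getD p.1.2 []).map
      fun b => bif b then (1 : ℤ) else 0)) :=
    map (F := fun (_ : (α × ℕ) × ℕ) (b : Bool) => bif b then (1 : ℤ) else 0)
      (getD (hL.comp (fst (fst id))) (snd (fst id)) (const [])) g0
  have g2 : Poly (fun p : (α × ℕ) × ℕ => (bif decide (p.1.2 = p.2) then
      (((L p.1.1).getD p.1.2 []).map fun b => bif b then (1 : ℤ) else 0).sum else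
      (bif H687R2.Pgst.gt (L p.1.1) p.1.2 p.2 then (-1 : ℤ) else 0))) :=
    cond (decide_eq (snd (fst id)) (snd id)) (isum g1)
      (cond (gt (hL.comp (fst (fst id))) (snd (fst id)) (snd id)) (const (-1)) (const 0))
  have g3 : Poly (fun p : α × ℕ => (List.range (L p.1).length).map fun j =>
      bif decide (p.2 = j) then
      (((L p.1).getD p.2 []).map fun b => bif b then (1 : ℤ) else 0).sum else
      (bif H687R2.Pgst.gt (L p.1) p.2 j then (-1 : ℤ) else 0)) :=
    map (F := fun (p : α × ℕ) (j : ℕ) => bif decide (p.2 = j) then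
      (((L p.1).getD p.2 []).map fun b => bif b then (1 : ℤ) else 0).sum else
      (bif H687R2.Pgst.gt (L p.1) p.2 j then (-1 : ℤ) else 0))
      (range_length (hL.comp (fst id))) g2
  exact map (F := fun (a : α) (i : ℕ) => (List.range (L a).length).map fun j =>
      bif decide (i = j) then
      (((L a).getD i []).map fun b => bif b then (1 : ℤ) else 0).sum else
      (bif H687R2.Pgst.gt (L a) i j then (-1 : ℤ) else 0)) (range_length hL) g3

end Pool.Agent.Y576.PG.PolyM

namespace Pool.Agent.Y576.PG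

open Pool.Agent.NPC Pool.Agent.H687R2.LLL Pool.Agent.H687R2.Pgst

/-- Pretty good transfer between rational states is decidable in polynomial time. -/
theorem inPP_problem2 : InPP Problem2 := by
  refine inPP_of (d := dec2) PolyM.dec2 fun x => ?_
  constructor
  · rintro ⟨n, q, A, a, b, hq, hsymm, hab, hne, hne', rfl, hp⟩
    exact (dec2_inp hq hsymm hab hne hne').2 hp
  · intro hx
    have hv : valid' x = true := by
      rw [dec2, Bool.and_eq_true] at hx
      exact hx.1
    obtain ⟨n, q, A, a, b, hq, hsymm, hab, hne, hne', rfl⟩ := exists_of_valid' hv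
    exact ⟨n, q, A, a, b, hq, hsymm, hab, hne, hne', rfl, (dec2_inp hq hsymm hab hne hne').1 hx⟩

theorem unitL_eq {n : ℕ} (u : Fin n) : PolyM.unitL n u = vecL (Pi.single u 1) := by
  rw [PolyM.unitL, range_map_eq_ofFn, vecL]
  congr 1
  funext j
  simp only [Pi.single_apply, Fin.ext_iff]
  by_cases h1 : (j : ℕ) = u <;> simp [h1]

/-- A family of symmetric integer matrices of graphs which is computable in polynomial time. -/
theorem graph_inPP (F : List (List Bool) → List (List ℤ)) (hF : Poly F)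
    (MM : ∀ (n : ℕ) (G : SimpleGraph (Fin n)) (_ : DecidableRel G.Adj), Matrix (Fin n) (Fin n) ℤ)
    (hFM : ∀ (n : ℕ) (G : SimpleGraph (Fin n)) (d : DecidableRel G.Adj),
      F (code G) = matL (MM n G d))
    (hsymm : ∀ (n : ℕ) (G : SimpleGraph (Fin n)) (d : DecidableRel G.Adj), (MM n G d).IsSymm) :
    InPP (fun y : List (List Bool) × ℕ × ℕ => ∃ (n : ℕ) (G : SimpleGraph (Fin n))
      (d : DecidableRel G.Adj) (u v : Fin n), u ≠ v ∧ y = (code G, (u : ℕ), (v : ℕ)) ∧
      Trans 1 (MM n G d) (Pi.single u 1) (Pi.single v 1)) := by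
  have hn : UPoly (fun y : List (List Bool) × ℕ × ℕ => y.1.length) :=
    UPoly.length (Poly.fst Poly.id)
  have hd : Poly (fun y : List (List Bool) × ℕ × ℕ => valid y && dec2 ((1, F y.1,
      PolyM.unitL y.1.length y.2.1, PolyM.unitL y.1.length y.2.2) : Inp)) := by
    refine Poly.and Poly.valid ?_
    have h1 : Poly (fun y : List (List Bool) × ℕ × ℕ => ((1, F y.1,
      PolyM.unitL y.1.length y.2.1, PolyM.unitL y.1.length y.2.2) : Inp)) :=
      NPC.Poly.pair (NPC.Poly.const 1) (NPC.Poly.pair (hF.comp (NPC.Poly.fst NPC.Poly.id))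
        (NPC.Poly.pair (PolyM.unitL_poly hn (NPC.Poly.fst (NPC.Poly.snd NPC.Poly.id)))
          (PolyM.unitL_poly hn (NPC.Poly.snd (NPC.Poly.snd NPC.Poly.id)))))
    exact PolyM.dec2.comp h1
  have key : ∀ (n : ℕ) (G : SimpleGraph (Fin n)) (d : DecidableRel G.Adj) (u v : Fin n), u ≠ v →
      (dec2 ((1, F (code G), PolyM.unitL (code G).length u, PolyM.unitL (code G).length v) : Inp)
        = true ↔ Trans 1 (MM n G d) (Pi.single u 1) (Pi.single v 1)) := by
    intro n G d u v huv
    rw [hFM n G d, length_code, unitL_eq, unitL_eq]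
    refine dec2_inp one_pos (hsymm n G d) (by simp) ?_ ?_
    · intro h
      have := congrFun h u
      simp [huv] at this
    · intro h
      have := congrFun h u
      simp [huv] at this
  refine inPP_of hd fun y => ?_
  rw [Bool.and_eq_true]
  constructor
  · rintro ⟨n, G, d, u, v, huv, rfl, hp⟩
    exact ⟨valid_code G huv, (key n G d u v huv).2 hp⟩
  · rintro ⟨hv, hx⟩
    obtain ⟨n, G, d, u, v, huv, rfl⟩ := exists_of_valid hv
    exact ⟨n, G, d, u, v, huv, rfl, (key n G d u v huv).1 hx⟩

/-- The amplitude between two vertices. -/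
theorem trans_single {n : ℕ} (A : Matrix (Fin n) (Fin n) ℤ) (u v : Fin n) :
    Trans 1 A (Pi.single u 1) (Pi.single v 1) ↔ ∀ ε : ℝ, 0 < ε → ∃ t : ℝ,
      1 - ε < ‖(NormedSpace.exp ((Complex.I * (t : ℂ)) • A.map (Int.cast : ℤ → ℂ)) :
        Matrix (Fin n) (Fin n) ℂ) u v‖ := by
  have e1 : (Matrix.of fun i j => (A i j : ℂ) / ((1 : ℕ) : ℂ)) = A.map (Int.cast : ℤ → ℂ) := by
    ext i j
    simp
  have e2 : ∀ w : Fin n, (fun k => (((Pi.single w 1 : Fin n → ℤ) k : ℤ) : ℂ)) = Pi.single w 1 := by
    intro w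
    funext k
    simp only [Pi.single_apply]
    split_ifs <;> simp
  rw [Trans]
  simp only [e1, e2, mul_one, Matrix.mulVec_single_one, single_one_dotProduct, Matrix.col_apply,
    Pi.single_eq_same, Int.cast_one]

/-- The integer adjacency matrix of a matrix of bits. -/
def adjF (L : List (List Bool)) : List (List ℤ) := toA L

theorem adjF_poly : Poly adjF := NPC.Poly.toA NPC.Poly.id

theorem adjF_code {n : ℕ} (G : SimpleGraph (Fin n)) [DecidableRel G.Adj] :
    adjF (code G) = matL (G.adjMatrix ℤ) := toA_code G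

theorem toLap_code {n : ℕ} (G : SimpleGraph (Fin n)) [DecidableRel G.Adj] :
    PolyM.toLap (code G) = matL (G.lapMatrix ℤ) := by
  rw [PolyM.toLap, length_code, range_map_eq_ofFn, matL]
  congr 1
  funext i
  rw [range_map_eq_ofFn]
  congr 1
  funext j
  rw [gt_code]
  have h1 : ((code G).getD i []).map (fun b => bif b then (1 : ℤ) else 0) =
      List.ofFn fun k : Fin n => if G.Adj i k then (1 : ℤ) else 0 := by
    rw [code, List.getD_eq_getElem (List.ofFn _) _ (by simp)]
    rw [List.getElem_ofFn, List.map_ofFn]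
    congr 1
    funext k
    simp only [Function.comp_apply, Fin.eta]
    by_cases h : G.Adj i k <;> simp [h]
  rw [h1, List.sum_ofFn]
  rw [SimpleGraph.lapMatrix, Matrix.sub_apply, SimpleGraph.degMatrix, SimpleGraph.adjMatrix_apply]
  by_cases hij : i = j
  · subst hij
    simp [SimpleGraph.card_neighborSet_eq_degree, SimpleGraph.degree, SimpleGraph.neighborFinset_eq_filter]
  · have hij' : (i : ℕ) ≠ j := fun h => hij (Fin.ext h)
    simp only [hij', decide_false, cond_false, Matrix.diagonal_apply_ne _ hij, zero_sub]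
    by_cases h : G.Adj i j <;> simp [h]

end Pool.Agent.Y576.PG
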